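import Pool.Agent.Work.MP_65e34f.Basic

/-! Block D2: subgroups without parabolic elements. -/

namespace Pool.FG.helper76

open MulAction

theorem num_sorted {g a b c x y z : ℕ} (hg : 2 ≤ g) (ha : a * x = g) (hb : b * y = g)
    (hc : c * z = g) (hx : 2 ≤ x) (hxy : x ≤ y) (hyz : y ≤ z) (hs : a + b + c = g + 2) :
    c = 2 ∨ (g ≤ 60 ∧ x = 2 ∧ y = 3 ∧ (z = 3 ∨ z = 4 ∨ z = 5)) := by
  have hx2 : x = 2 := by
    by_contra hne
    have h3 : 3 ≤ x := by omega
    have h1 : a * 3 ≤ g := by rw [← ha]; exact Nat.mul_le_mul_left a h3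
    have h2 : b * 3 ≤ g := by rw [← hb]; exact Nat.mul_le_mul_left b (h3.trans hxy)
    have h4 : c * 3 ≤ g := by rw [← hc]; exact Nat.mul_le_mul_left c ((h3.trans hxy).trans hyz)
    omega
  subst hx2
  have hy : y = 2 ∨ y = 3 := by
    by_contra hne
    have h3 : 4 ≤ y := by omega
    have h2 : b * 4 ≤ g := by rw [← hb]; exact Nat.mul_le_mul_left b h3
    have h4 : c * 4 ≤ g := by rw [← hc]; exact Nat.mul_le_mul_left c (h3.trans hyz)
    omega
  rcases hy with rfl | rfl
  · left
    omega
  · right
    have h1 : 6 * c = g + 12 := by omega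
    have h5 : z ≤ 5 := by
      by_contra hne
      have h6 : c * 6 ≤ g := by rw [← hc]; exact Nat.mul_le_mul_left c (by omega)
      omega
    have h7 : z = 3 ∨ z = 4 ∨ z = 5 := by omega
    refine ⟨?_, rfl, rfl, h7⟩
    rcases h7 with rfl | rfl | rfl <;> omega

theorem num_three {g : ℕ} (n e : Fin 3 → ℕ) (hg : 2 ≤ g) (h : ∀ i, n i * e i = g)
    (he : ∀ i, 2 ≤ e i) (hs : n 0 + n 1 + n 2 = g + 2) :
    (∃ i, n i = 2) ∨ (g ≤ 60 ∧ ((∀ i, e i = 2 ∨ e i = 3 ∨ e i = 4) ∨
      (∀ i, e i = 2 ∨ e i = 3 ∨ e i = 5))) := by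
  have key : ∀ i j k : Fin 3, n i + n j + n k = g + 2 → e i ≤ e j → e j ≤ e k →
      (∀ l, l = i ∨ l = j ∨ l = k) → (∃ i, n i = 2) ∨
      (g ≤ 60 ∧ ((∀ i, e i = 2 ∨ e i = 3 ∨ e i = 4) ∨ (∀ i, e i = 2 ∨ e i = 3 ∨ e i = 5))) := by
    intro i j k hs' h1 h2 hall
    rcases num_sorted hg (h i) (h j) (h k) (he i) h1 h2 hs' with h3 | ⟨h3, h4, h5, h6⟩
    · exact Or.inl ⟨k, h3⟩
    · right
      refine ⟨h3, ?_⟩
      rcases h6 with h6 | h6 | h6
      · left
        intro l
        rcases hall l with rfl | rfl | rfl <;> omega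
      · left
        intro l
        rcases hall l with rfl | rfl | rfl <;> omega
      · right
        intro l
        rcases hall l with rfl | rfl | rfl <;> omega
  rcases le_total (e 0) (e 1) with h1 | h1 <;> rcases le_total (e 1) (e 2) with h2 | h2 <;>
    rcases le_total (e 0) (e 2) with h3 | h3
  · exact key 0 1 2 (by omega) h1 h2 (by decide)
  · exact key 0 1 2 (by omega) h1 h2 (by decide)
  · exact key 0 2 1 (by omega) h3 h2 (by decide)
  · exact key 2 0 1 (by omega) h3 h1 (by decide)
  · exact key 1 0 2 (by omega) h1 h3 (by decide)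
  · exact key 1 2 0 (by omega) h2 h3 (by decide)
  · exact key 2 1 0 (by omega) h2 h1 (by decide)
  · exact key 2 1 0 (by omega) h2 h1 (by decide)

theorem stmt_D2 (h0 : Stmt_D0) (hO : Stmt_ORB) : Stmt_D2 := by
  intro K _ _ H h1 hpar
  classical
  obtain ⟨hsc, -, hnp⟩ := h0 K
  let Z : Subgroup H :=
    { carrier := {x | Sc (x : SL K)}
      mul_mem' := fun ha hb => Sc.mul ha hb
      one_mem' := Sc_one
      inv_mem' := fun h => Sc.inv h }
  have hZ : ∀ x : H, x ∈ Z ↔ Sc (x : SL K) := fun x => Iff.rfl
  set Y : Set (PF K) := {P | ∃ h ∈ H, ¬ Sc h ∧ h • P = P} with hY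
  have hfix : ∀ h ∈ H, ¬ Sc h → ∃ P P' : PF K, P ≠ P' ∧ {Q : PF K | h • Q = Q} = {P, P'} := by
    intro h hh hns
    obtain ⟨P, P', hne, hP⟩ := hnp h hns (hpar h hh)
    refine ⟨P, P', hne, ?_⟩
    ext Q
    exact hP Q
  have hYfin : Y.Finite := by
    have h2 : Y ⊆ ⋃ h ∈ {h : SL K | h ∈ H ∧ ¬ Sc h}, {Q : PF K | h • Q = Q} := by
      rintro P ⟨h, hh, hns, hP⟩
      simp only [Set.mem_iUnion]
      exact ⟨h, ⟨hh, hns⟩, hP⟩
    refine Set.Finite.subset (Set.Finite.biUnion (Set.toFinite _) ?_) h2
    rintro h ⟨hh, hns⟩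
    obtain ⟨P, P', -, hP⟩ := hfix h hh hns
    rw [hP]
    exact Set.toFinite _
  have hst : ∀ g : H, ∀ y ∈ Y, g • y ∈ Y := by
    rintro g y ⟨h, hh, hns, hP⟩
    refine ⟨g * h * (g : SL K)⁻¹, H.mul_mem (H.mul_mem g.2 hh) (H.inv_mem g.2), ?_, ?_⟩
    · rw [Sc_conj_iff]
      exact hns
    · change ((g : SL K) * h * (g : SL K)⁻¹) • ((g : SL K) • y) = (g : SL K) • y
      rw [mul_smul, mul_smul, inv_smul_smul, hP]
  obtain ⟨t, y, hyY, huniq, hcard, hsum⟩ := hO H (PF K) Z Y (fun z hz P => hsc z P hz) hYfin hst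
  -- the numbers
  have hzpos : 0 < Nat.card Z := Nat.card_pos
  obtain ⟨g, hg⟩ : Nat.card Z ∣ Nat.card H := Subgroup.card_subgroup_dvd_card Z
  have hHpos : 0 < Nat.card H := Nat.card_pos
  have hgpos : 0 < g := by
    rcases Nat.eq_zero_or_pos g with h | h
    · rw [h, mul_zero] at hg
      omega
    · exact h
  have hle : ∀ i, Z ≤ stabilizer H (y i) := fun i z hz => hsc z (y i) hz
  have hdvd : ∀ i, ∃ e, Nat.card (stabilizer H (y i)) = Nat.card Z * e := fun i =>
    Subgroup.card_dvd_of_le (hle i)
  choose e he using hdvd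
  have hne : ∀ i, (orbit H (y i)).ncard * e i = g := by
    intro i
    have h2 := hcard i
    rw [he i, hg] at h2
    have h3 : Nat.card Z * ((orbit H (y i)).ncard * e i) = Nat.card Z * g := by
      rw [← h2]; ring
    exact Nat.eq_of_mul_eq_mul_left hzpos h3
  have he2 : ∀ i, 2 ≤ e i := by
    intro i
    by_contra hlt
    have h2 : e i = 0 ∨ e i = 1 := by omega
    rcases h2 with h2 | h2
    · have h3 := hne i
      rw [h2, mul_zero] at h3
      omega
    · have h3 := he i
      rw [h2, mul_one] at h3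
      have h4 : Z = stabilizer H (y i) := by
        apply SetLike.coe_injective
        apply Set.eq_of_subset_of_ncard_le (hle i)
        · rw [← Nat.card_coe_set_eq, ← Nat.card_coe_set_eq]
          exact le_of_eq h3
      obtain ⟨h, hh, hns, hP⟩ := hyY i
      have h5 : (⟨h, hh⟩ : H) ∈ Z := by
        rw [h4]
        exact hP
      exact hns h5
  have hfs : (∑ᶠ x : {x : H // x ∉ Z}, Set.ncard {P | P ∈ Y ∧ x.1 • P = P}) =
      2 * (Nat.card H - Nat.card Z) := by
    have h2 : ∀ x : {x : H // x ∉ Z}, Set.ncard {P | P ∈ Y ∧ x.1 • P = P} = 2 := by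
      intro x
      obtain ⟨P, P', hPP, hF⟩ := hfix x.1 x.1.2 x.2
      have h3 : {Q | Q ∈ Y ∧ x.1 • Q = Q} = {P, P'} := by
        rw [← hF]
        ext Q
        constructor
        · rintro ⟨-, h⟩
          exact h
        · intro h
          exact ⟨⟨x.1, x.1.2, x.2, h⟩, h⟩
      rw [h3, Set.ncard_pair hPP]
    rw [finsum_congr h2]
    have : Fintype {x : H // x ∉ Z} := Fintype.ofFinite _
    rw [finsum_eq_sum_of_fintype, Finset.sum_const, Finset.card_univ, smul_eq_mul, mul_comm,
      ← Nat.card_eq_fintype_card]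
    congr 1
    have h4 := Set.ncard_add_ncard_compl (Z : Set H)
    have h5 : Nat.card Z = (Z : Set H).ncard := rfl
    have h6 : Nat.card {x : H // x ∉ Z} = ((Z : Set H)ᶜ).ncard := rfl
    rw [h5, h6]
    omega
  rw [hfs, hg, ← Finset.sum_mul] at hsum
  have hmain : ∑ i, (orbit H (y i)).ncard + 2 * (g - 1) = t * g := by
    have h2 : Nat.card Z * g - Nat.card Z = Nat.card Z * (g - 1) := by
      rw [Nat.mul_sub, mul_one]
    rw [h2] at hsum
    have h3 : Nat.card Z * (∑ i, (orbit H (y i)).ncard + 2 * (g - 1)) = Nat.card Z * (t * g) := by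
      calc _ = (∑ i, (orbit H (y i)).ncard) * Nat.card Z + 2 * (Nat.card Z * (g - 1)) := by ring
        _ = t * (Nat.card Z * g) := hsum
        _ = _ := by ring
    exact Nat.eq_of_mul_eq_mul_left hzpos h3
  rcases Nat.lt_or_ge g 2 with hg2 | hg2
  · -- all elements are scalar
    left
    have hg1 : g = 1 := by omega
    rw [hg1, mul_one] at hg
    have h2 : Z = ⊤ := Subgroup.eq_top_of_card_eq Z hg.symm
    obtain ⟨P⟩ : Nonempty (PF K) := inferInstance
    refine ⟨P, fun h hh => ?_⟩
    have h3 : (⟨h, hh⟩ : H) ∈ Z := by rw [h2]; exact Subgroup.mem_top _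
    exact hsc h P h3
  · have hpos : ∀ i, 1 ≤ (orbit H (y i)).ncard := by
      intro i
      have h2 := hne i
      rcases Nat.eq_zero_or_pos (orbit H (y i)).ncard with h3 | h3
      · rw [h3, zero_mul] at h2
        omega
      · exact h3
    have hhalf : ∀ i, 2 * (orbit H (y i)).ncard ≤ g := by
      intro i
      rw [← hne i, mul_comm]
      exact Nat.mul_le_mul_left _ (he2 i)
    have ht3 : t ≤ 3 := by
      by_contra hlt
      have h2 : 2 * ∑ i, (orbit H (y i)).ncard ≤ t * g := by
        rw [Finset.mul_sum]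
        calc ∑ i, 2 * (orbit H (y i)).ncard ≤ ∑ _i : Fin t, g :=
              Finset.sum_le_sum fun i _ => hhalf i
          _ = t * g := by simp
      have h3 : 4 * g ≤ t * g := Nat.mul_le_mul_right g (by omega)
      omega
    have hslow : t ≤ ∑ i, (orbit H (y i)).ncard := by
      calc t = ∑ _i : Fin t, 1 := by simp
        _ ≤ _ := Finset.sum_le_sum fun i _ => hpos i
    have ht2 : 2 ≤ t := by
      by_contra hlt
      have h2 : t = 0 ∨ t = 1 := by omega
      rcases h2 with rfl | rfl
      · omega
      · simp only [Finset.univ_unique, Fin.default_eq_zero, Finset.sum_singleton, one_mul] at hmain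
        have := hpos 0
        omega
    have ht : t = 2 ∨ t = 3 := by omega
    rcases ht with rfl | rfl
    · -- two fixed points
      left
      rw [Fin.sum_univ_two] at hmain
      have h2 := hpos 0
      have h3 := hpos 1
      have h4 : (orbit H (y 0)).ncard = 1 := by omega
      rw [Set.ncard_eq_one] at h4
      obtain ⟨P, hP⟩ := h4
      have h5 : y 0 = P := by
        have : y 0 ∈ orbit H (y 0) := mem_orbit_self _
        rw [hP] at this
        exact this
      refine ⟨P, fun h hh => ?_⟩
      have h6 : (⟨h, hh⟩ : H) • y 0 ∈ orbit H (y 0) := mem_orbit _ _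
      rw [hP, h5] at h6
      exact h6
    · rw [Fin.sum_univ_three] at hmain
      rcases num_three (fun i => (orbit H (y i)).ncard) e hg2 hne he2 (by omega) with
        ⟨i, hi⟩ | ⟨hg60, hE⟩
      · right; left
        rw [Set.ncard_eq_two] at hi
        obtain ⟨P, Q, hPQ, hor⟩ := hi
        have hmem : ∀ h ∈ H, ∀ R : PF K, (R = P ∨ R = Q) → (h • R = P ∨ h • R = Q) := by
          intro h hh R hR
          have h2 : R ∈ orbit H (y i) := by rw [hor]; exact hR
          have h3 : (⟨h, hh⟩ : H) • R ∈ orbit H (y i) := by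
            rw [← orbit_eq_iff.2 h2]
            exact mem_orbit _ _
          rw [hor] at h3
          exact h3
        refine ⟨P, Q, hPQ, fun h hh => ?_⟩
        rcases hmem h hh P (Or.inl rfl) with h2 | h2 <;>
          rcases hmem h hh Q (Or.inr rfl) with h3 | h3
        · exact absurd (smul_left_cancel h (h2.trans h3.symm)) hPQ
        · exact Or.inl ⟨h2, h3⟩
        · exact Or.inr ⟨h2, h3⟩
        · exact absurd (smul_left_cancel h (h2.trans h3.symm)) hPQ
      · right; right
        have hz2 : Nat.card Z ≤ 2 := by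
          have h2 : Nat.card Z = (Subtype.val '' (Z : Set H)).ncard := by
            rw [Set.ncard_image_of_injective _ Subtype.val_injective]
            rfl
          rw [h2]
          refine le_trans (Set.ncard_le_ncard ?_ (Set.toFinite _)) (ncard_Sc_le (K := K))
          rintro _ ⟨x, hx, rfl⟩
          exact hx
        have hpow : ∀ h ∈ H, Sc h ∨ ∃ i, Sc (h ^ e i) := by
          intro h hh
          by_cases hns : Sc h
          · exact Or.inl hns
          right
          obtain ⟨P, P', -, hF⟩ := hfix h hh hns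
          have hPf : h • P = P := by
            have : P ∈ {Q : PF K | h • Q = Q} := by rw [hF]; exact Or.inl rfl
            exact this
          have hPY : P ∈ Y := ⟨h, hh, hns, hPf⟩
          obtain ⟨i, hi, -⟩ := huniq P hPY
          obtain ⟨k, hk⟩ := hi
          refine ⟨i, ?_⟩
          -- the conjugate in the stabilizer
          have hk' : k • y i = P := hk
          have h2 : k⁻¹ * (⟨h, hh⟩ : H) * k ∈ stabilizer H (y i) := by
            rw [mem_stabilizer_iff, mul_smul, mul_smul, hk']
            have h3 : (⟨h, hh⟩ : H) • P = P := hPf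
            rw [h3, ← hk', inv_smul_smul]
          have hnorm : (Z.subgroupOf (stabilizer H (y i))).Normal := by
            constructor
            intro n hn x
            rw [Subgroup.mem_subgroupOf] at hn ⊢
            rw [hZ] at hn ⊢
            have : ((x * n * x⁻¹ : stabilizer H (y i)) : H) =
              (x : H) * (n : H) * (x : H)⁻¹ := rfl
            rw [this]
            have h4 : (((x : H) * (n : H) * (x : H)⁻¹ : H) : SL K) =
              ((x : H) : SL K) * ((n : H) : SL K) * ((x : H) : SL K)⁻¹ := rfl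
            rw [h4, Sc_conj_iff]
            exact hn
          have hindex : (Z.subgroupOf (stabilizer H (y i))).index = e i := by
            have h4 := Subgroup.card_mul_index (Z.subgroupOf (stabilizer H (y i)))
            rw [he i, Nat.card_congr (Subgroup.subgroupOfEquivOfLe (hle i)).toEquiv] at h4
            exact Nat.eq_of_mul_eq_mul_left hzpos h4
          have h5 := Subgroup.pow_index_mem (Z.subgroupOf (stabilizer H (y i)))
            (⟨_, h2⟩ : stabilizer H (y i))
          rw [hindex, Subgroup.mem_subgroupOf] at h5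
          have h6 : Sc ((((k⁻¹ * (⟨h, hh⟩ : H) * k) ^ e i : H)) : SL K) := h5
          have h7 : (((k⁻¹ * (⟨h, hh⟩ : H) * k) ^ e i : H) : SL K) =
              ((k : SL K)⁻¹ * h * ((k : SL K)⁻¹)⁻¹) ^ e i := by
            rw [inv_inv]
            rfl
          rw [h7, conj_pow, Sc_conj_iff] at h6
          exact h6
        refine ⟨?_, ?_⟩
        · rw [hg]
          calc Nat.card Z * g ≤ 2 * 60 := Nat.mul_le_mul hz2 hg60
            _ = 120 := by norm_num
        · rcases hE with hE | hE
          · left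
            intro h hh
            rcases hpow h hh with hs | ⟨i, hi⟩
            · exact Or.inl (hs.pow 2)
            · rcases hE i with h2 | h2 | h2 <;> rw [h2] at hi
              · exact Or.inl hi
              · exact Or.inr (Or.inl hi)
              · exact Or.inr (Or.inr hi)
          · right
            intro h hh
            rcases hpow h hh with hs | ⟨i, hi⟩
            · exact Or.inl (hs.pow 2)
            · rcases hE i with h2 | h2 | h2 <;> rw [h2] at hi
              · exact Or.inl hi
              · exact Or.inr (Or.inl hi)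
              · exact Or.inr (Or.inr hi)

end Pool.FG.helper76
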