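import Pool.Agent.Work.MP_65e34f_helper76.CRD

/-! Block LSM: sum over the conjugates of the subgroup of a subfield. -/

namespace Pool.FG.helper76

open Matrix

section

variable {K : Type} [Field K]

/-- the matrices `c M`, `c ∈ K`, `M ∈ GL_2(L)` -/
noncomputable def Uh (L : Subfield K) : Kˣ × GL (Fin 2) L →* GL (Fin 2) K where
  toFun w := Matrix.GeneralLinearGroup.scalar (Fin 2) w.1 *
    Matrix.GeneralLinearGroup.map L.subtype w.2
  map_one' := by simp
  map_mul' v w := by
    simp only [Prod.fst_mul, Prod.snd_mul, map_mul]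
    rw [mul_assoc, mul_assoc]
    congr 1
    rw [← mul_assoc, Matrix.GeneralLinearGroup.scalar_commute, mul_assoc]

theorem Uh_val (L : Subfield K) (w : Kˣ × GL (Fin 2) L) :
    ((Uh L w : GL (Fin 2) K) : M2 K) = (w.1 : K) • inc L (w.2 : M2 L) := by
  have h1 : ((Uh L w : GL (Fin 2) K) : M2 K) =
      Matrix.scalar (Fin 2) (w.1 : K) * inc L (w.2 : M2 L) := rfl
  rw [h1]
  ext i j
  rw [Matrix.scalar_apply, Matrix.diagonal_mul]
  rfl

theorem HL_mul_le (L : Subfield K) (g : GL (Fin 2) K) (w : Kˣ × GL (Fin 2) L) :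
    HL L (g * Uh L w) ≤ HL L g := by
  rintro x ⟨c, M, hx⟩
  refine ⟨c, (w.2 : M2 L) * M * ((w.2⁻¹ : GL (Fin 2) L) : M2 L), ?_⟩
  have h1 : ((Uh L w)⁻¹ : GL (Fin 2) K) = Uh L w⁻¹ := (map_inv (Uh L) w).symm
  rw [hx, _root_.mul_inv_rev, h1, Units.val_mul, Units.val_mul, Uh_val, Uh_val, inc_mul, inc_mul]
  congr 1
  have h2 : ((w⁻¹).1 : K) = ((w.1 : Kˣ) : K)⁻¹ := by simp
  have h3 : ((w⁻¹).2 : GL (Fin 2) L) = w.2⁻¹ := rfl
  rw [h2, h3]
  simp only [smul_mul_assoc, mul_smul_comm, mul_assoc, smul_smul]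
  rw [inv_mul_cancel₀ w.1.ne_zero, one_smul]

theorem HL_mul (L : Subfield K) (g : GL (Fin 2) K) (w : Kˣ × GL (Fin 2) L) :
    HL L (g * Uh L w) = HL L g := by
  refine le_antisymm (HL_mul_le L g w) ?_
  have h := HL_mul_le L (g * Uh L w) w⁻¹
  rwa [map_inv, mul_inv_cancel_right] at h

theorem card_ker_le [Finite K] (L : Subfield K) : Nat.card (Uh L).ker ≤ Nat.card L - 1 := by
  rw [← Nat.card_units L]
  apply Nat.card_le_card_of_injective
    (fun w : (Uh L).ker => Matrix.GeneralLinearGroup.det (w.1.2) * (Units.mk0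
      ((w.1.2 : M2 L) 0 0) (by
        intro h0
        have h1 := congrArg (fun g : GL (Fin 2) K => (g : M2 K) 0 0) (MonoidHom.mem_ker.1 w.2)
        simp only [Uh_val] at h1
        simp [inc, h0] at h1))⁻¹)
  rintro ⟨⟨c, M⟩, hw⟩ ⟨⟨c', M'⟩, hw'⟩ h
  rw [MonoidHom.mem_ker] at hw hw'
  have e1 : ∀ i j, (c : K) * ((M : M2 L) i j : K) = (1 : M2 K) i j := by
    intro i j
    have h1 := congrArg (fun g : GL (Fin 2) K => (g : M2 K) i j) hw
    simp only [Uh_val] at h1
    simpa [inc] using h1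
  have e2 : ∀ i j, (c' : K) * ((M' : M2 L) i j : K) = (1 : M2 K) i j := by
    intro i j
    have h1 := congrArg (fun g : GL (Fin 2) K => (g : M2 K) i j) hw'
    simp only [Uh_val] at h1
    simpa [inc] using h1
  have a00 := e1 0 0
  have a01 := e1 0 1
  have a10 := e1 1 0
  have a11 := e1 1 1
  have b00 := e2 0 0
  have b01 := e2 0 1
  have b10 := e2 1 0
  have b11 := e2 1 1
  simp only [Matrix.one_apply_eq] at a00 a11 b00 b11
  rw [Matrix.one_apply_ne (by decide)] at a01 a10 b01 b10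
  have hc := c.ne_zero
  have hc' := c'.ne_zero
  have m01 : (M : M2 L) 0 1 = 0 := by
    have := (mul_eq_zero.1 a01).resolve_left hc
    exact_mod_cast this
  have m10 : (M : M2 L) 1 0 = 0 := by
    have := (mul_eq_zero.1 a10).resolve_left hc
    exact_mod_cast this
  have n01 : (M' : M2 L) 0 1 = 0 := by
    have := (mul_eq_zero.1 b01).resolve_left hc'
    exact_mod_cast this
  have n10 : (M' : M2 L) 1 0 = 0 := by
    have := (mul_eq_zero.1 b10).resolve_left hc'
    exact_mod_cast this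
  have m11 : (M : M2 L) 1 1 = (M : M2 L) 0 0 := by
    apply Subtype.ext
    exact mul_left_cancel₀ hc (a11.trans a00.symm)
  have n11 : (M' : M2 L) 1 1 = (M' : M2 L) 0 0 := by
    apply Subtype.ext
    exact mul_left_cancel₀ hc' (b11.trans b00.symm)
  have hm0 : (M : M2 L) 0 0 ≠ 0 := by
    intro h0
    rw [h0] at a00
    simp at a00
  have hn0 : (M' : M2 L) 0 0 ≠ 0 := by
    intro h0
    rw [h0] at b00
    simp at b00
  have h2 := congrArg Units.val h
  simp only [Units.val_mul, Matrix.GeneralLinearGroup.val_det_apply, Matrix.det_fin_two, m01, m10,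
    n01, n10, m11, n11, mul_zero, sub_zero, Units.val_inv_eq_inv_val, Units.val_mk0] at h2
  rw [mul_assoc, mul_assoc, mul_inv_cancel₀ hm0, mul_inv_cancel₀ hn0, mul_one, mul_one] at h2
  have hM : M = M' := by
    apply Units.ext
    ext i j
    fin_cases i <;> fin_cases j
    · simpa using congrArg Subtype.val h2
    · simp [m01, n01]
    · simp [m10, n10]
    · simp only [Fin.mk_one, Fin.isValue]
      rw [m11, n11, h2]
  have hcc : c = c' := by
    apply Units.ext
    rw [← h2] at b00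
    have hmK : (((M : M2 L) 0 0 : L) : K) ≠ 0 := by exact_mod_cast hm0
    exact mul_right_cancel₀ hmK (a00.trans b00.symm)
  subst hM
  subst hcc
  rfl

theorem card_range_ge [Finite K] (L : Subfield K) :
    (Nat.card K - 1) * ((Nat.card L ^ 2 - 1) * Nat.card L) ≤ Nat.card (Uh L).range := by
  have h1 := Subgroup.card_mul_index (Uh L).ker
  rw [Subgroup.index_ker, Nat.card_prod, Nat.card_units, card_GL2] at h1
  have h2 := card_ker_le L
  have hl := two_le_card (K := L)
  have h5 : Nat.card L ^ 2 - Nat.card L = Nat.card L * (Nat.card L - 1) := by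
    rw [Nat.mul_sub, mul_one, pow_two]
  rw [h5] at h1
  have h3 : (Nat.card L - 1) * ((Nat.card K - 1) * ((Nat.card L ^ 2 - 1) * Nat.card L)) ≤
      (Nat.card L - 1) * Nat.card (Uh L).range := by
    calc _ = (Nat.card K - 1) * ((Nat.card L ^ 2 - 1) * (Nat.card L * (Nat.card L - 1))) := by ring
      _ = Nat.card (Uh L).ker * Nat.card (Uh L).range := h1.symm
      _ ≤ _ := Nat.mul_le_mul_right _ h2
  exact Nat.le_of_mul_le_mul_left h3 (by omega)

end

theorem stmt_LSM : Stmt_LSM := by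
  intro W ds K _ _ L B hB
  classical
  set S : Set (List (SL K) × (Fin W.n → SL K)) :=
    {t | t ∈ Tup W ds (⊤ : Subgroup (SL K)) ∧ ∃ g : GL (Fin 2) K, gn t ≤ HL L g} with hS
  have hSfin : S.Finite := (Tup_finite W ds ⊤).subset fun t ht => ht.1
  set P : Set (GL (Fin 2) K × (List (SL K) × (Fin W.n → SL K))) :=
    {w | w.2 ∈ S ∧ gn w.2 ≤ HL L w.1} with hP
  have : Finite (GL (Fin 2) K) := inferInstance
  have hPfin : P.Finite := ((Set.finite_univ (α := GL (Fin 2) K)).prod hSfin).subset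
    fun w hw => ⟨trivial, hw.1⟩
  have h1 : S.ncard * Nat.card (Uh L).range ≤ P.ncard := by
    apply mul_le_ncard_of_fiber hPfin hSfin Prod.snd
    rintro t ⟨ht, g, hg⟩
    have h2 : Nat.card (Uh L).range =
        ((fun u : GL (Fin 2) K => (g * u, t)) '' ((Uh L).range : Set (GL (Fin 2) K))).ncard := by
      rw [Set.ncard_image_of_injective]
      · rfl
      · intro u v huv
        exact mul_left_cancel (Prod.ext_iff.1 huv).1
    rw [h2]
    apply Set.ncard_le_ncard _ (hPfin.subset fun w hw => hw.1)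
    rintro _ ⟨_, ⟨w, rfl⟩, rfl⟩
    refine ⟨⟨⟨ht, g, hg⟩, ?_⟩, rfl⟩
    simp only
    rw [HL_mul]
    exact hg
  have h2 : P.ncard ≤ Nat.card (GL (Fin 2) K) * B := by
    have h3 := ncard_le_mul_of_fiber hPfin (Set.finite_univ (α := GL (Fin 2) K)) Prod.fst
      (fun w _ => trivial) B ?_
    · rwa [Set.ncard_univ] at h3
    · intro g _
      refine le_trans ?_ (hB g)
      have h4 : {a | a ∈ P ∧ a.1 = g} ⊆ (fun t => (g, t)) '' (Tup W ds (HL L g)) := by
        rintro ⟨g', t⟩ ⟨⟨ht, hg⟩, rfl⟩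
        exact ⟨t, mem_Tup_of_gn_le ht.1 hg, rfl⟩
      exact (Set.ncard_le_ncard h4 ((Tup_finite W ds _).image _)).trans
        (Set.ncard_image_le (Tup_finite W ds _))
  have h3 := card_range_ge L
  rw [card_GL2] at h2
  have hq := two_le_card (K := K)
  have hl := two_le_card (K := L)
  have h5 : Nat.card K ^ 2 - Nat.card K = Nat.card K * (Nat.card K - 1) := by
    rw [Nat.mul_sub, mul_one, pow_two]
  rw [h5] at h2
  have h6 : (Nat.card K - 1) * (S.ncard * ((Nat.card L ^ 2 - 1) * Nat.card L)) ≤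
      (Nat.card K - 1) * ((Nat.card K ^ 2 - 1) * Nat.card K * B) := by
    calc _ = S.ncard * ((Nat.card K - 1) * ((Nat.card L ^ 2 - 1) * Nat.card L)) := by ring
      _ ≤ S.ncard * Nat.card (Uh L).range := Nat.mul_le_mul_left _ h3
      _ ≤ _ := h1.trans h2
      _ = _ := by ring
  have h7 := Nat.le_of_mul_le_mul_left h6 (by omega)
  have h8 : (Nat.card K ^ 2 - 1) * Nat.card K * B ≤ Nat.card K ^ 3 * B := by
    apply Nat.mul_le_mul_right
    calc (Nat.card K ^ 2 - 1) * Nat.card K ≤ Nat.card K ^ 2 * Nat.card K :=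
          Nat.mul_le_mul_right _ (Nat.sub_le _ _)
      _ = Nat.card K ^ 3 := by ring
  have h9 : Nat.card L ^ 3 ≤ 2 * ((Nat.card L ^ 2 - 1) * Nat.card L) := by
    have h10 : Nat.card L ^ 2 ≤ 2 * (Nat.card L ^ 2 - 1) := by
      have : 4 ≤ Nat.card L ^ 2 := by nlinarith
      omega
    calc Nat.card L ^ 3 = Nat.card L ^ 2 * Nat.card L := by ring
      _ ≤ 2 * (Nat.card L ^ 2 - 1) * Nat.card L := Nat.mul_le_mul_right _ h10
      _ = _ := by ring
  calc Nat.card L ^ 3 * S.ncard ≤ 2 * ((Nat.card L ^ 2 - 1) * Nat.card L) * S.ncard :=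
        Nat.mul_le_mul_right _ h9
    _ = 2 * (S.ncard * ((Nat.card L ^ 2 - 1) * Nat.card L)) := by ring
    _ ≤ 2 * (Nat.card K ^ 3 * B) := Nat.mul_le_mul_left 2 (h7.trans h8)
    _ = 2 * Nat.card K ^ 3 * B := by ring

end Pool.FG.helper76
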