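import Pool.Agent.Work.MP_65e34f.Basic

/-! Block ORB: orbit counting. -/

namespace Pool.FG.helper76

open MulAction

theorem stmt_ORB : Stmt_ORB := by
  intro G X _ _ _ Z Y hZ hY hst
  classical
  have : Fintype G := Fintype.ofFinite G
  let S : SubMulAction G X := { carrier := Y, smul_mem' := fun g y hy => hst g y hy }
  have hfin : Finite S := hY
  have : Fintype S := Fintype.ofFinite S
  have : Finite (orbitRel.Quotient G S) := Quotient.finite _
  have : Fintype (orbitRel.Quotient G S) := Fintype.ofFinite _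
  have : ∀ g : G, Fintype (fixedBy S g) := fun g => Fintype.ofFinite _
  let e : Fin (Fintype.card (orbitRel.Quotient G S)) ≃ orbitRel.Quotient G S :=
    (Fintype.equivFin _).symm
  have hor : ∀ s : S, (orbit G (s : X)) = Subtype.val '' (orbit G s) := by
    intro s
    ext x
    constructor
    · rintro ⟨g, rfl⟩
      exact ⟨g • s, ⟨g, rfl⟩, rfl⟩
    · rintro ⟨_, ⟨g, rfl⟩, rfl⟩
      exact ⟨g, rfl⟩
  refine ⟨Fintype.card (orbitRel.Quotient G S), fun i => ((e i).out : S), fun i => (e i).out.2,
    ?_, ?_, ?_⟩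
  · intro x hx
    have key : ∀ i, x ∈ orbit G (((e i).out : S) : X) ↔
        (Quotient.mk'' (⟨x, hx⟩ : S) : orbitRel.Quotient G S) = e i := by
      intro i
      rw [hor]
      have h1 : (e i) = Quotient.mk'' (e i).out := (Quotient.out_eq' (e i)).symm
      constructor
      · rintro ⟨s, hs, hsx⟩
        have h2 : s = (⟨x, hx⟩ : S) := Subtype.ext hsx
        subst h2
        rw [h1]
        exact Quotient.sound' hs
      · intro h
        rw [h1] at h
        exact ⟨⟨x, hx⟩, Quotient.exact' h, rfl⟩
    refine ⟨e.symm (Quotient.mk'' (⟨x, hx⟩ : S)), ?_, ?_⟩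
    · simp only
      rw [key, Equiv.apply_symm_apply]
    · intro j hj
      simp only at hj
      rw [key] at hj
      rw [hj, Equiv.symm_apply_apply]
  · intro i
    simp only
    have h1 := Nat.card_congr (orbitProdStabilizerEquivGroup G (((e i).out : S) : X))
    rw [Nat.card_prod] at h1
    exact h1
  · -- sizes of the orbits
    have h1 : ∑ i, (orbit G (((e i).out : S) : X)).ncard = Y.ncard := by
      have h2 : Y.ncard = Nat.card S := rfl
      rw [h2, Nat.card_congr (selfEquivSigmaOrbits G S), Nat.card_sigma]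
      rw [← e.sum_comp]
      refine Finset.sum_congr rfl fun i _ => ?_
      rw [hor, Set.ncard_image_of_injective _ Subtype.val_injective]
      rfl
    have h3 := sum_card_fixedBy_eq_card_orbits_mul_card_group G S
    have h4 : ∀ g : G, Fintype.card (fixedBy S g) = Set.ncard {x | x ∈ Y ∧ g • x = x} := by
      intro g
      have h5 : {x | x ∈ Y ∧ g • x = x} = Subtype.val '' (fixedBy S g) := by
        ext x
        constructor
        · rintro ⟨hx, hg⟩
          exact ⟨⟨x, hx⟩, Subtype.ext hg, rfl⟩
        · rintro ⟨s, hs, rfl⟩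
          exact ⟨s.2, congrArg Subtype.val hs⟩
      rw [h5, Set.ncard_image_of_injective _ Subtype.val_injective, ← Nat.card_eq_fintype_card]
      rfl
    have h6 : ∑ g : G, Set.ncard {x | x ∈ Y ∧ g • x = x} =
        ∑ g : {g : G // g ∈ Z}, Set.ncard {x | x ∈ Y ∧ g.1 • x = x} +
        ∑ g : {g : G // g ∉ Z}, Set.ncard {x | x ∈ Y ∧ g.1 • x = x} :=
      (Fintype.sum_subtype_add_sum_subtype (fun g => g ∈ Z)
        (fun g => Set.ncard {x | x ∈ Y ∧ g • x = x})).symm
    have h7 : ∑ g : {g : G // g ∈ Z}, Set.ncard {x | x ∈ Y ∧ g.1 • x = x} =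
        Nat.card Z * Y.ncard := by
      have h8 : ∀ g : {g : G // g ∈ Z}, Set.ncard {x | x ∈ Y ∧ g.1 • x = x} = Y.ncard := by
        intro g
        congr 1
        ext x
        exact ⟨fun h => h.1, fun h => ⟨h, hZ g.1 g.2 x⟩⟩
      rw [Finset.sum_congr rfl fun g _ => h8 g, Finset.sum_const, Finset.card_univ,
        ← Nat.card_eq_fintype_card, smul_eq_mul]
    rw [finsum_eq_sum_of_fintype, ← Finset.sum_mul, h1, Nat.card_eq_fintype_card (α := G)]
    rw [Finset.sum_congr rfl fun g _ => h4 g, h6, h7] at h3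
    rw [mul_comm (Y.ncard)]
    exact h3

end Pool.FG.helper76
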