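import Pool.Agent.Work.MP_65e34f.Basic

/-! Blocks RPB and RPN: unions over the Borel subgroups and over the torus normalizers. -/

namespace Pool.FG.helper76

open Matrix

theorem union_bound {W : Wd} {ds : List ℕ} {K : Type} [Field K] [Finite K] {ι : Type} [Finite ι]
    (R : Set ι) (H : ι → Subgroup (SL K)) (B : ℕ) (hB : ∀ a ∈ R, (Tup W ds (H a)).ncard ≤ B)
    (P : List (SL K) × (Fin W.n → SL K) → Prop) (hP : ∀ t, P t → ∃ a ∈ R, gn t ≤ H a) :
    Set.ncard {t | t ∈ Tup W ds (⊤ : Subgroup (SL K)) ∧ P t} ≤ Nat.card ι * B := by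
  classical
  have hfin : {t | t ∈ Tup W ds (⊤ : Subgroup (SL K)) ∧ P t}.Finite :=
    (Tup_finite W ds ⊤).subset fun t ht => ht.1
  rcases isEmpty_or_nonempty ι with he | hne
  · have h1 : {t | t ∈ Tup W ds (⊤ : Subgroup (SL K)) ∧ P t} = ∅ := by
      ext t
      simp only [Set.mem_ofPred_eq, Set.mem_empty_iff_false, iff_false, not_and]
      intro _ hPt
      obtain ⟨a, -⟩ := hP t hPt
      exact he.false a
    rw [h1, Set.ncard_empty]
    exact Nat.zero_le _
  · have h1 := ncard_le_mul_of_fiber hfin (Set.toFinite R)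
      (fun t => if h : ∃ a ∈ R, gn t ≤ H a then h.choose else Classical.arbitrary ι)
      (fun t ht => by
        rw [dif_pos (hP t ht.2)]
        exact (hP t ht.2).choose_spec.1) B (by
        intro a ha
        refine le_trans (Set.ncard_le_ncard ?_ (Tup_finite W ds _)) (hB a ha)
        rintro t ⟨ht, h⟩
        rw [dif_pos (hP t ht.2)] at h
        rw [← h]
        exact mem_Tup_of_gn_le ht.1 (hP t ht.2).choose_spec.2)
    refine h1.trans (Nat.mul_le_mul_right B ?_)
    rw [← Set.ncard_univ]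
    exact Set.ncard_le_ncard (Set.subset_univ _)

/-- representatives of the lines -/
def rpt {K : Type} [Field K] : Option K → Fin 2 → K
  | none => ![0, 1]
  | some c => ![1, c]

theorem rpt_ne {K : Type} [Field K] (a : Option K) : rpt a ≠ 0 := by
  cases a with
  | none =>
    intro h
    have := congrFun h 1
    simp [rpt] at this
  | some c =>
    intro h
    have := congrFun h 0
    simp [rpt] at this

theorem Bor_le {K : Type} [Field K] {v w : Fin 2 → K} (hv : v ≠ 0) (hw : w ≠ 0) {s : K}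
    (hs : s ≠ 0) (h : v = s • w) : Bor v hv ≤ Bor w hw := by
  rintro x ⟨c, hc⟩
  refine ⟨c, ?_⟩
  rw [h, Matrix.mulVec_smul, smul_comm c s] at hc
  exact smul_right_injective _ hs hc

theorem stmt_RPB : Stmt_RPB := by
  intro W ds K _ _ B hB
  have hc : Nat.card (Option K) = Nat.card K + 1 := Finite.card_option
  rw [← hc]
  refine union_bound Set.univ (fun a => Bor (rpt a) (rpt_ne a)) B (fun a _ => hB _ _) _ ?_
  rintro t ⟨v, hv, ht⟩
  by_cases h0 : v 0 = 0
  · have h1 : v 1 ≠ 0 := by
      intro h1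
      apply hv
      ext i
      fin_cases i
      · exact h0
      · exact h1
    refine ⟨none, trivial, ht.trans (Bor_le hv (rpt_ne none) h1 ?_)⟩
    ext i
    fin_cases i
    · simp [rpt, h0]
    · simp [rpt]
  · refine ⟨some (v 1 / v 0), trivial, ht.trans (Bor_le hv (rpt_ne _) h0 ?_)⟩
    ext i
    fin_cases i
    · simp [rpt]
    · simp [rpt, mul_div_cancel₀ _ h0]

/-- representatives of the tori -/
def rpm {K : Type} [Field K] : (K × K) ⊕ K → M2 K
  | Sum.inl w => !![1, w.1; w.2, 0]
  | Sum.inr c => !![0, 1; c, 0]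

theorem Nor_le {K : Type} [Field K] {y z : M2 K} {s u : K} (hs : s ≠ 0)
    (h : y = s • z + u • (1 : M2 K)) : Nor y ≤ Nor z := by
  have h00 : y 0 0 = s * z 0 0 + u := by rw [h]; simp
  have h11 : y 1 1 = s * z 1 1 + u := by rw [h]; simp
  intro x hx
  have hinj : Function.Injective fun M : M2 K => s • M := smul_right_injective _ hs
  rcases hx with hx | hx
  · left
    rw [h, mul_add, add_mul, mul_smul_comm, smul_mul_assoc, mul_smul_comm, smul_mul_assoc, mul_one,
      one_mul, add_left_inj] at hx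
    exact hinj hx
  · right
    rw [h00, h11] at hx
    apply hinj
    simp only
    have e1 : (x : M2 K) * y = s • ((x : M2 K) * z) + u • (x : M2 K) := by
      rw [h, mul_add, mul_smul_comm, mul_smul_comm, mul_one]
    have e2 : ((s * z 0 0 + u + (s * z 1 1 + u)) • (1 : M2 K) - y) * (x : M2 K) =
        s • (((z 0 0 + z 1 1) • (1 : M2 K) - z) * (x : M2 K)) + u • (x : M2 K) := by
      rw [h, sub_mul, add_mul, smul_mul_assoc, one_mul, smul_mul_assoc, smul_mul_assoc, one_mul,
        sub_mul, smul_sub, smul_mul_assoc, one_mul, smul_smul]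
      module
    rw [e1, e2, add_left_inj] at hx
    exact hx

theorem dsc_of {K : Type} [Field K] {y z : M2 K} {s u : K}
    (h : y = s • z + u • (1 : M2 K)) : dsc y = s ^ 2 * dsc z := by
  unfold dsc
  rw [Matrix.det_fin_two, Matrix.det_fin_two, h]
  simp
  ring

theorem stmt_RPN : Stmt_RPN := by
  intro W ds K _ _ B hB
  have hc : Nat.card ((K × K) ⊕ K) ≤ Nat.card K ^ 2 + Nat.card K + 1 := by
    rw [Nat.card_sum, Nat.card_prod]
    nlinarith
  refine le_trans ?_ (Nat.mul_le_mul_right B hc)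
  refine union_bound {a | dsc (rpm a) ≠ 0} (fun a => Nor (rpm a)) B (fun a ha => hB _ ha) _ ?_
  rintro t ⟨y, hy, ht⟩
  have key : ∀ (a : (K × K) ⊕ K) (s u : K), s ≠ 0 → y = s • rpm a + u • (1 : M2 K) →
      ∃ a ∈ {a : (K × K) ⊕ K | dsc (rpm a) ≠ 0}, gn t ≤ Nor (rpm a) := by
    intro a s u hs h
    refine ⟨a, ?_, ht.trans (Nor_le hs h)⟩
    intro h0
    apply hy
    rw [dsc_of h, h0, mul_zero]
  by_cases h0 : y 0 0 = y 1 1
  · by_cases h1 : y 0 1 = 0
    · exfalso
      apply hy
      unfold dsc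
      rw [Matrix.det_fin_two, h0, h1]
      ring
    · refine key (Sum.inr (y 1 0 / y 0 1)) (y 0 1) (y 1 1) h1 ?_
      ext i j
      fin_cases i <;> fin_cases j
      · simp [rpm, h0]
      · simp [rpm]
      · simp [rpm, mul_div_cancel₀ _ h1]
      · simp [rpm]
  · have hs : y 0 0 - y 1 1 ≠ 0 := sub_ne_zero.2 h0
    refine key (Sum.inl (y 0 1 / (y 0 0 - y 1 1), y 1 0 / (y 0 0 - y 1 1))) (y 0 0 - y 1 1)
      (y 1 1) hs ?_
    ext i j
    fin_cases i <;> fin_cases j
    · simp [rpm]
    · simp [rpm, mul_div_cancel₀ _ hs]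
    · simp [rpm, mul_div_cancel₀ _ hs]
    · simp [rpm]

end Pool.FG.helper76
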