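import Pool.Agent.Work.MP_65e34f.Basic

/-! Block CRD: the order of `SL_2(K)`. -/

namespace Pool.FG.helper76

open Matrix

theorem card_GL2 (K : Type) [Field K] [Finite K] :
    Nat.card (GL (Fin 2) K) = (Nat.card K ^ 2 - 1) * (Nat.card K ^ 2 - Nat.card K) := by
  have : Fintype K := Fintype.ofFinite K
  rw [Matrix.card_GL_field, Fin.prod_univ_two, Nat.card_eq_fintype_card]
  simp

theorem stmt_CRD : Stmt_CRD := by
  intro K _ _
  classical
  have h1 := Subgroup.card_mul_index (Matrix.GeneralLinearGroup.det (n := Fin 2) (R := K)).ker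
  rw [Subgroup.index_ker] at h1
  have h2 : Nat.card (Matrix.GeneralLinearGroup.det (n := Fin 2) (R := K)).range =
      Nat.card K - 1 := by
    rw [MonoidHom.range_eq_top.2 Matrix.GeneralLinearGroup.det_surjective, Subgroup.card_top,
      Nat.card_units]
  have h3 : Nat.card (SL K) =
      Nat.card (Matrix.GeneralLinearGroup.det (n := Fin 2) (R := K)).ker := by
    refine Nat.card_congr (Equiv.ofBijective (fun x => ⟨Matrix.SpecialLinearGroup.toGL x, ?_⟩) ?_)
    · rw [MonoidHom.mem_ker]
      exact Matrix.SpecialLinearGroup.coeToGL_det x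
    · constructor
      · intro x y h
        exact Matrix.SpecialLinearGroup.toGL_injective (congrArg Subtype.val h)
      · rintro ⟨g, hg⟩
        rw [MonoidHom.mem_ker] at hg
        have h4 : (g : M2 K).det = 1 := by
          have := congrArg Units.val hg
          exact this
        refine ⟨⟨(g : M2 K), h4⟩, ?_⟩
        apply Subtype.ext
        apply Units.ext
        rfl
  rw [← h3, h2, card_GL2] at h1
  have hq := two_le_card (K := K)
  have h5 : Nat.card K ^ 2 - Nat.card K = Nat.card K * (Nat.card K - 1) := by
    rw [Nat.mul_sub, mul_one, pow_two]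
  rw [h5] at h1
  have h6 : Nat.card (SL K) * (Nat.card K - 1) =
      (Nat.card K * (Nat.card K ^ 2 - 1)) * (Nat.card K - 1) := by
    rw [h1]; ring
  exact Nat.eq_of_mul_eq_mul_right (by omega) h6

end Pool.FG.helper76
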